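import Pool.Agent.D0H99.OD.Stm6

set_option autoImplicit false

/-! Module A0 of project OD4 (helper99): the monic polynomials of degree `D` over a finite field. -/

open Polynomial

namespace Pool.Agent.D0H41.OD

open Finset
open Pool.Agent.D0H99.OD

open Classical in
theorem mem_MO {k : Type} [Field k] [Fintype k] {D : ℕ} {f : k[X]} :
    f ∈ MO k D ↔ f.Monic ∧ f.natDegree = D := by
  unfold MO
  rw [mem_image]
  constructor
  · rintro ⟨c, -, rfl⟩
    have h := degree_sum_fin_lt c
    refine ⟨monic_X_pow_add h, ?_⟩
    rw [natDegree_add_eq_left_of_degree_lt (by rw [degree_X_pow]; exact h), natDegree_X_pow]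
  · rintro ⟨hf, hD⟩
    refine ⟨fun i => f.coeff i, mem_univ _, ?_⟩
    conv_rhs => rw [hf.as_sum]
    rw [hD, Finset.sum_range]

open Classical in
theorem card_MO {k : Type} [Field k] [Fintype k] (D : ℕ) : (MO k D).card = Fintype.card k ^ D := by
  unfold MO
  rw [card_image_of_injective, card_univ, Fintype.card_fun, Fintype.card_fin]
  intro c c' h
  simp only at h
  have h1 := add_left_cancel h
  funext i
  have h2 := congrArg (fun g : k[X] => g.coeff i) h1
  simp only [finsetSum_coeff, coeff_C_mul, coeff_X_pow] at h2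
  have e : ∀ c : Fin D → k, (∑ j : Fin D, c j * if (i : ℕ) = (j : ℕ) then 1 else 0) = c i := by
    intro c
    rw [Finset.sum_eq_single i]
    · simp
    · intro j _ hj
      rw [if_neg (fun h => hj (Fin.ext h.symm)), mul_zero]
    · intro h
      exact absurd (mem_univ i) h
  rw [e, e] at h2
  exact h2

open Classical in
theorem card_dvd {k : Type} [Field k] [Fintype k] (D : ℕ) (E : k[X]) (hE : E.Monic) :
    ((MO k D).filter fun f => E ∣ f).card =
      if E.natDegree ≤ D then Fintype.card k ^ (D - E.natDegree) else 0 := by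
  split_ifs with h
  · have h1 : ((MO k D).filter fun f => E ∣ f) = (MO k (D - E.natDegree)).image fun g => E * g := by
      ext f
      rw [mem_filter, mem_image, mem_MO]
      constructor
      · rintro ⟨⟨hf, hfD⟩, g, rfl⟩
        have hg : g.Monic := hE.of_mul_monic_left hf
        refine ⟨g, mem_MO.2 ⟨hg, ?_⟩, rfl⟩
        rw [hE.natDegree_mul hg] at hfD
        omega
      · rintro ⟨g, hg, rfl⟩
        rw [mem_MO] at hg
        refine ⟨⟨hE.mul hg.1, ?_⟩, dvd_mul_right _ _⟩
        rw [hE.natDegree_mul hg.1]
        omega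
    rw [h1, card_image_of_injective, card_MO]
    intro g g' hgg
    exact mul_left_cancel₀ hE.ne_zero hgg
  · rw [card_eq_zero, filter_eq_empty_iff]
    intro f hf hdvd
    rw [mem_MO] at hf
    have := natDegree_le_of_dvd hdvd hf.1.ne_zero
    omega

theorem t_A0 : S_A0 := by
  intro k _ _ D
  exact ⟨fun f => mem_MO, card_MO D, fun E hE => card_dvd D E hE⟩

end Pool.Agent.D0H41.OD
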