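import Pool.Agent.D0H99.OD.Stm6
import Pool.Agent.Y164.PS.Chr

set_option autoImplicit false

/-! Module A3 of project OD4 (helper99): few monic polynomials have two prime factors of the same large degree. -/

open Polynomial

namespace Pool.Agent.D0H41.OD

open Finset
open Pool.Agent.D0H99.OD
open Pool.Agent.Y164.PS (Pr mem_Pr card_Pr_le)

/-- different monic primes are coprime -/
theorem cop {k : Type} [Field k] {P Q : k[X]} (hP : P.Monic) (hPi : Irreducible P) (hQ : Q.Monic)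
    (hQi : Irreducible Q) (h : P ≠ Q) : IsCoprime P Q := by
  rcases EuclideanDomain.dvd_or_coprime P Q hPi with h1 | h1
  · exact absurd (eq_of_monic_of_associated hP hQ (hPi.associated_of_dvd hQi h1)) h
  · exact h1

open Classical in
theorem t_A3 : S_A0 → S_A3 := by
  intro hA0 k _ _ hk n0 D hn0
  obtain ⟨hm, hc, hd⟩ := hA0 k D
  set q : ℝ := (Fintype.card k : ℝ) with hq
  have hq1 : 1 < q := by
    rw [hq]
    exact_mod_cast (Fintype.one_lt_card (α := k))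
  have hq0 : 0 < q := by linarith
  set U : Finset k[X] := (Ioc n0 D).biUnion fun n => ((Pr k n) ×ˢ (Pr k n)).biUnion fun z =>
    (MO k D).filter fun f => z.1 ≠ z.2 ∧ z.1 * z.2 ∣ f with hU
  have hsub : {f ∈ (MO k D : Set k[X]) | ∃ P ∈ PD f, ∃ P' ∈ PD f, P ≠ P' ∧ n0 < P.natDegree ∧
      P.natDegree = P'.natDegree} ⊆ (U : Set k[X]) := by
    rintro f ⟨hf, P, hP, P', hP', hne, hn, hdeg⟩
    have hf' : f ∈ MO k D := hf
    have hfm := (hm f).1 hf'
    have hle : P.natDegree ≤ D := by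
      rw [← hfm.2]
      exact natDegree_le_of_dvd hP.2.2 hfm.1.ne_zero
    rw [Finset.mem_coe, hU, mem_biUnion]
    refine ⟨P.natDegree, mem_Ioc.2 ⟨hn, hle⟩, ?_⟩
    rw [mem_biUnion]
    refine ⟨(P, P'), mem_product.2 ⟨mem_Pr.2 ⟨hP.1, hP.2.1, rfl⟩, mem_Pr.2 ⟨hP'.1, hP'.2.1, hdeg.symm⟩⟩, ?_⟩
    rw [mem_filter]
    exact ⟨hf', hne, (cop hP.1 hP.2.1 hP'.1 hP'.2.1 hne).mul_dvd hP.2.2 hP'.2.2⟩
  have h1 : ({f ∈ (MO k D : Set k[X]) | ∃ P ∈ PD f, ∃ P' ∈ PD f, P ≠ P' ∧ n0 < P.natDegree ∧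
      P.natDegree = P'.natDegree}.ncard : ℝ) ≤ (U.card : ℝ) := by
    have := Set.ncard_le_ncard hsub (Finset.finite_toSet U)
    rw [Set.ncard_coe_finset] at this
    exact_mod_cast this
  have h2 : ∀ n ∈ Ioc n0 D, ∀ z ∈ (Pr k n) ×ˢ (Pr k n),
      ((((MO k D).filter fun f => z.1 ≠ z.2 ∧ z.1 * z.2 ∣ f).card : ℕ) : ℝ) ≤ q ^ D / (q ^ n) ^ 2 := by
    intro n _ z hz
    rw [mem_product] at hz
    obtain ⟨hz1, hz2⟩ := hz
    rw [mem_Pr] at hz1 hz2
    have h3 : ((MO k D).filter fun f => z.1 ≠ z.2 ∧ z.1 * z.2 ∣ f).card ≤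
        ((MO k D).filter fun f => z.1 * z.2 ∣ f).card := by
      refine card_le_card fun f hf => ?_
      rw [mem_filter] at hf ⊢
      exact ⟨hf.1, hf.2.2⟩
    have h4 := hd (z.1 * z.2) (hz1.1.mul hz2.1)
    rw [hz1.1.natDegree_mul hz2.1, hz1.2.2, hz2.2.2] at h4
    have h5 : ((((MO k D).filter fun f => z.1 * z.2 ∣ f).card : ℕ) : ℝ) ≤ q ^ D / (q ^ n) ^ 2 := by
      rw [h4]
      split_ifs with h6
      · rw [le_div_iff₀ (by positivity)]
        push_cast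
        rw [← hq, ← pow_mul, ← pow_add]
        exact (pow_le_pow_right₀ hq1.le (by omega))
      · simp only [Nat.cast_zero]
        positivity
    exact le_trans (by exact_mod_cast h3) h5
  have h3 : (U.card : ℝ) ≤ ∑ n ∈ Ioc n0 D, q ^ D * ((n : ℝ) ^ 2)⁻¹ := by
    have h4 : U.card ≤ ∑ n ∈ Ioc n0 D, ∑ z ∈ (Pr k n) ×ˢ (Pr k n),
        ((MO k D).filter fun f => z.1 ≠ z.2 ∧ z.1 * z.2 ∣ f).card :=
      card_biUnion_le.trans (sum_le_sum fun n _ => card_biUnion_le)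
    have h5 : (U.card : ℝ) ≤ ∑ n ∈ Ioc n0 D, ∑ z ∈ (Pr k n) ×ˢ (Pr k n),
        ((((MO k D).filter fun f => z.1 ≠ z.2 ∧ z.1 * z.2 ∣ f).card : ℕ) : ℝ) := by exact_mod_cast h4
    refine h5.trans (sum_le_sum fun n hn => ?_)
    have hn1 : 1 ≤ n := by
      rw [mem_Ioc] at hn
      omega
    have hn0' : (0 : ℝ) < n := by exact_mod_cast hn1
    refine (sum_le_card_nsmul _ _ _ (h2 n hn)).trans ?_
    rw [nsmul_eq_mul, card_product]
    have h6 := card_Pr_le (k := k) hk n hn1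
    have h7 : ((Pr k n).card : ℝ) ≤ q ^ n / n := by
      rw [le_div_iff₀ hn0', mul_comm]
      exact h6
    have h8 : ((Pr k n).card : ℝ) * ((Pr k n).card : ℝ) ≤ (q ^ n / n) * (q ^ n / n) :=
      mul_le_mul h7 h7 (Nat.cast_nonneg _) (by positivity)
    push_cast
    calc ((Pr k n).card : ℝ) * ((Pr k n).card : ℝ) * (q ^ D / (q ^ n) ^ 2)
        ≤ (q ^ n / n) * (q ^ n / n) * (q ^ D / (q ^ n) ^ 2) := mul_le_mul_of_nonneg_right h8 (by positivity)
      _ = q ^ D * ((n : ℝ) ^ 2)⁻¹ := by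
        field_simp
  refine h1.trans (h3.trans ?_)
  rw [← mul_sum, div_eq_mul_inv]
  refine mul_le_mul_of_nonneg_left ?_ (by positivity)
  rcases le_or_gt n0 D with h | h
  · have h4 := sum_Ioc_inv_sq_le_sub (α := ℝ) (k := n0) (n := D) (by omega) h
    refine h4.trans ?_
    have : (0 : ℝ) ≤ (D : ℝ)⁻¹ := by positivity
    linarith
  · rw [Ioc_eq_empty (by omega), sum_empty]
    positivity

end Pool.Agent.D0H41.OD
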