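import Pool.Agent.D0H99.OD.Stm

/-!
Project OD (helper99), module EQD (helper41): the symbols of random primes of different degrees.
-/

set_option autoImplicit false

open Polynomial

namespace Pool.Agent.D0H41.OD

open Finset
open Pool.Agent.Y164.SZ
open Pool.Agent.Y164.PS (Fam Pr mem_Pr card_Pr_ge)
open Pool.Agent.D0H99.FT (count_one)
open Pool.Agent.D0H99.RM (V X sy cst cst_succ cst_le exT)
open Pool.Agent.D0H99.OD

section
variable {k : Type} [Field k] [Fintype k] [DecidableEq k]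

/-- the number of the primes -/
theorem pr_ge (hk : ringChar k ≠ 2) {M : ℕ} (hM : 1 ≤ M)
    (h4 : 4 ≤ (Real.sqrt (Fintype.card k)) ^ M) :
    (Real.sqrt (Fintype.card k)) ^ M * (Real.sqrt (Fintype.card k)) ^ M ≤
      2 * M * (Pr k M).card := by
  have h1 := card_Pr_ge (k := k) hk M hM
  have h2 : (Fintype.card k : ℝ) ^ M =
      (Real.sqrt (Fintype.card k)) ^ M * (Real.sqrt (Fintype.card k)) ^ M := by
    rw [← mul_pow, Real.mul_self_sqrt (Nat.cast_nonneg _)]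
  rw [h2] at h1
  obtain ⟨t, ht⟩ : ∃ t, t = (Real.sqrt (Fintype.card k)) ^ M := ⟨_, rfl⟩
  rw [← ht] at h1 h4 ⊢
  nlinarith [mul_nonneg (by linarith : (0 : ℝ) ≤ t) (by linarith : (0 : ℝ) ≤ t - 4)]

/-- the number of the extensions of a tuple -/
theorem ex_card (S : SYM 2 k) (hk : ringChar k ≠ 2) {N : ℕ} {P : Fin 2 → k[X]}
    (hPm : ∀ s, (P s).Monic) (hPi : ∀ s, Irreducible (P s)) (hPinj : Function.Injective P)
    (hPd : ∀ s, (P s).natDegree = N) {r : ℕ} {n : Fin r → ℕ} (hn : StrictAnti n)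
    (hN : ∀ i, N < n i) {M : ℕ} (hM : ∀ i, n i < M) (hM1 : 1 ≤ M)
    (h4 : 4 ≤ (Real.sqrt (Fintype.card k)) ^ M) (b : Fin r → ZMod 2) (q : V 2 2)
    {d : Fin r → k[X]} (hd : ∀ i, d i ∈ Pr k (n i)) :
    1 / (2 : ℝ) ^ (r + 2) * ((Pr k M).card : ℝ) * (1 - (2 : ℝ) ^ (r + 1) *
        ((60 + 80 * (N : ℝ)) * (M : ℝ) ^ 3 / (Real.sqrt (Fintype.card k)) ^ M)) ≤
      ((exT 2 P M b q d).card : ℝ) := by
  classical
  have hd5 : ∀ i, (d i).Monic ∧ Irreducible (d i) ∧ (d i).natDegree = n i := fun i =>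
    mem_Pr.1 (hd i)
  have hR : Fam (Sum.elim d P) := by
    refine ⟨?_, ?_, ?_⟩
    · rintro (x | a)
      · exact (hd5 x).1
      · exact hPm a
    · rintro (x | a)
      · exact (hd5 x).2.1
      · exact hPi a
    · refine Function.Injective.sumElim (fun i j h => ?_) hPinj ?_
      · apply hn.injective
        rw [← (hd5 i).2.2, ← (hd5 j).2.2, h]
      · intro x a h
        have h1 := hN x
        rw [← hPd a, ← h, (hd5 x).2.2] at h1
        exact lt_irrefl _ h1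
  have hr : r ≤ M := by
    have h1 : Function.Injective fun i : Fin r => (⟨n i, hM i⟩ : Fin M) := fun i j h =>
      hn.injective (congrArg Fin.val h)
    have h2 := Fintype.card_le_of_injective _ h1
    rwa [Fintype.card_fin, Fintype.card_fin] at h2
  have hW : ∑ x, ((Sum.elim d P x).natDegree) ≤ M * M + 2 * N := by
    rw [Fintype.sum_sum_type]
    simp only [Sum.elim_inl, Sum.elim_inr]
    rw [sum_congr rfl fun a _ => hPd a, sum_const, card_univ, Fintype.card_fin, smul_eq_mul]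
    have h1 : ∑ i, (d i).natDegree ≤ ∑ _i : Fin r, M := sum_le_sum fun i _ => by
      rw [(hd5 i).2.2]
      exact (hM i).le
    rw [sum_const, card_univ, Fintype.card_fin, smul_eq_mul] at h1
    have h2 : r * M ≤ M * M := Nat.mul_le_mul_right _ hr
    omega
  have h1 := count_one S hR (Sum.elim b q) hM1 hW
  have h2 : (Fintype.card (Fin r ⊕ Fin 2 → ZMod 2) : ℝ) = (2 : ℝ) ^ (r + 2) := by
    rw [Fintype.card_fun, ZMod.card, Fintype.card_sum, Fintype.card_fin, Fintype.card_fin,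
      Nat.cast_pow]
    norm_num
  have h3 : (Fintype.card (Fin r ⊕ Fin 2) : ℝ) = (r : ℝ) + 2 := by
    rw [Fintype.card_sum, Fintype.card_fin, Fintype.card_fin]
    push_cast
    ring
  rw [h2, h3] at h1
  have h5 : ((exT 2 P M b q d).card : ℝ) = (((Pr k M).filter fun x => (∀ y, Sum.elim d P y ≠ x) ∧
      ∀ y, L 2 (Sum.elim d P y) x = Sum.elim b q y).card : ℝ) := by
    congr 2
  rw [h5]
  refine le_trans ?_ h1
  have h6 := pr_ge (k := k) hk hM1 h4
  obtain ⟨t, ht⟩ : ∃ t, t = (Real.sqrt (Fintype.card k)) ^ M := ⟨_, rfl⟩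
  obtain ⟨c, hc⟩ : ∃ c : ℝ, c = ((Pr k M).card : ℝ) := ⟨_, rfl⟩
  rw [← ht, ← hc] at h6 ⊢
  rw [← ht] at h4
  have ht0 : 0 < t := by linarith
  have hMr : (1 : ℝ) ≤ M := by exact_mod_cast hM1
  have hN0 : (0 : ℝ) ≤ N := Nat.cast_nonneg _
  have hrM : (r : ℝ) ≤ M := by exact_mod_cast hr
  have hpow : (1 : ℝ) / (2 : ℝ) ^ (r + 2) * c * (1 - (2 : ℝ) ^ (r + 1) *
      ((60 + 80 * (N : ℝ)) * (M : ℝ) ^ 3 / t)) =
      c / (2 : ℝ) ^ (r + 2) - c * ((60 + 80 * (N : ℝ)) * (M : ℝ) ^ 3) / (2 * t) := by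
    have e1 : (2 : ℝ) ^ (r + 2) = 2 * (2 : ℝ) ^ (r + 1) := by ring
    rw [e1]
    field_simp
  rw [hpow]
  have h7 : t * ((15 + 20 * (N : ℝ)) * (M : ℝ) ^ 2) ≤
      c * ((60 + 80 * (N : ℝ)) * (M : ℝ) ^ 3) / (2 * t) := by
    rw [le_div_iff₀ (by positivity)]
    have h8 := mul_le_mul_of_nonneg_right h6
      (by positivity : (0 : ℝ) ≤ (30 + 40 * (N : ℝ)) * (M : ℝ) ^ 2)
    calc t * ((15 + 20 * (N : ℝ)) * (M : ℝ) ^ 2) * (2 * t) =
          t * t * ((30 + 40 * (N : ℝ)) * (M : ℝ) ^ 2) := by ring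
      _ ≤ 2 * M * c * ((30 + 40 * (N : ℝ)) * (M : ℝ) ^ 2) := h8
      _ = c * ((60 + 80 * (N : ℝ)) * (M : ℝ) ^ 3) := by ring
  have h9 : (5 * ((2 * (M * M + 2 * N) : ℕ) : ℝ) + 2) * t + ((r : ℝ) + 2) ≤
      t * ((15 + 20 * (N : ℝ)) * (M : ℝ) ^ 2) := by
    push_cast
    have e1 : (r : ℝ) + 2 ≤ t * (3 * (M : ℝ) ^ 2) := by nlinarith
    have e2 : (N : ℝ) ≤ N * (M : ℝ) ^ 2 := le_mul_of_one_le_right hN0 (one_le_pow₀ hMr)
    have e3 : (5 * (2 * ((M : ℝ) * M + 2 * N)) + 2) * t ≤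
        t * (12 * (M : ℝ) ^ 2 + 20 * (N * (M : ℝ) ^ 2)) := by
      rw [mul_comm _ t]
      apply mul_le_mul_of_nonneg_left _ ht0.le
      nlinarith
    nlinarith
  linarith

theorem step (S : SYM0 2 k) {P : Fin 2 → k[X]} {r : ℕ} (n : Fin (r + 1) → ℕ)
    (A : Fin (r + 1) → Fin (r + 1) → ZMod 2) (hA : ∀ i j, A i j = A j i)
    (p : Fin (r + 1) → V 2 2) :
    ∑ d ∈ PtN P (fun i => n i.succ) (fun i j => A i.succ j.succ) (fun i => p i.succ),
      (exT 2 P (n 0) (fun i => A 0 i.succ) (p 0) d).card ≤ (PtN P n A p).card := by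
  classical
  rw [← card_sigma]
  refine card_le_card_of_injOn (fun x => (Fin.cons x.2 x.1 : Fin (r + 1) → k[X])) ?_ ?_
  · rintro ⟨d, x⟩ hx
    rw [mem_coe, mem_sigma] at hx
    obtain ⟨hd, hx⟩ := hx
    simp only at hd hx
    rw [PtN, mem_filter, Fintype.mem_piFinset] at hd
    rw [exT, mem_filter] at hx
    obtain ⟨hd1, hd3, hd4⟩ := hd
    obtain ⟨hx1, hx2, hx3⟩ := hx
    have hx4 : ∀ i, L 2 (d i) x = A 0 i.succ := fun i => hx3 (Sum.inl i)
    have hx5 : ∀ s, L 2 (P s) x = p 0 s := fun s => hx3 (Sum.inr s)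
    rw [mem_coe, PtN, mem_filter, Fintype.mem_piFinset]
    refine ⟨fun i => ?_, fun i s => ?_, fun i j hij => ?_⟩
    · refine Fin.cases ?_ (fun i => ?_) i
      · exact hx1
      · exact hd1 i
    · rcases Fin.eq_zero_or_eq_succ i with rfl | ⟨i, rfl⟩
      · exact hx5 s
      · exact hd3 i s
    · rcases Fin.eq_zero_or_eq_succ i with rfl | ⟨i, rfl⟩ <;>
        rcases Fin.eq_zero_or_eq_succ j with rfl | ⟨j, rfl⟩
      · exact absurd rfl hij
      · simp only [Fin.cons_zero, Fin.cons_succ]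
        exact hx4 j
      · simp only [Fin.cons_zero, Fin.cons_succ]
        rw [S.L_comm, hA]
        exact hx4 i
      · simp only [Fin.cons_succ]
        exact hd4 i j fun h => hij (congrArg Fin.succ h)
  · rintro ⟨d, x⟩ _ ⟨d', x'⟩ _ h
    simp only at h
    have h1 := Fin.cons_injective2 h
    obtain ⟨h2, h3⟩ := h1
    rw [h2, h3]

end

theorem t_EQD : S_EQD := by
  intro k _ _ _ S hk N P hN1 hPm hPi hPinj hPd r
  induction r with
  | zero =>
    intro n _ _ _ A p _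
    have h1 : (PtN P n A p).card = 1 := by
      classical
      rw [PtN, filter_true_of_mem, Fintype.card_piFinset, Fin.prod_univ_zero]
      intro d _
      exact ⟨fun i => i.elim0, fun i => i.elim0⟩
    rw [h1, Fin.prod_univ_zero, Fin.sum_univ_zero, mul_one, Nat.cast_one, sub_zero, mul_one]
    exact (cst_le (ℓ := 2) 2 0).2
  | succ r ih =>
    intro n hn hnN hn4 A p hA
    have hanti : StrictAnti fun i : Fin r => n i.succ := fun i j hij =>
      hn (Fin.succ_lt_succ_iff.2 hij)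
    have h1 := ih (fun i => n i.succ) hanti (fun i => hnN _) (fun i => hn4 _)
      (fun i j => A i.succ j.succ) (fun i => p i.succ) fun i j => hA _ _
    have h2 := step S.toSYM0 (P := P) n A hA p
    obtain ⟨G, hG⟩ : ∃ G, G = PtN P (fun i => n i.succ) (fun i j => A i.succ j.succ)
      (fun i => p i.succ) := ⟨_, rfl⟩
    have hM : ∀ i : Fin r, n i.succ < n 0 := fun i => hn (Fin.succ_pos i)
    have hM1 : 1 ≤ n 0 := by
      have := hnN 0
      omega
    obtain ⟨c, hc⟩ : ∃ c : ℝ, c = ((Pr k (n 0)).card : ℝ) := ⟨_, rfl⟩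
    obtain ⟨E, hE⟩ : ∃ E : ℝ, E = (2 : ℝ) ^ (r + 1) *
        ((60 + 80 * (N : ℝ)) * (n 0 : ℝ) ^ 3 / (Real.sqrt (Fintype.card k)) ^ n 0) := ⟨_, rfl⟩
    have h3 : (G.card : ℝ) * (1 / (2 : ℝ) ^ (r + 2) * c * (1 - E)) ≤
        ((PtN P n A p).card : ℝ) := by
      have h6 : ((∑ d ∈ G, (exT 2 P (n 0) (fun i => A 0 i.succ) (p 0) d).card : ℕ) : ℝ) ≤
          ((PtN P n A p).card : ℝ) := by
        rw [hG]
        exact_mod_cast h2
      refine le_trans ?_ h6
      rw [Nat.cast_sum, ← nsmul_eq_mul, ← sum_const]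
      refine sum_le_sum fun d hd => ?_
      rw [hG, PtN, mem_filter, Fintype.mem_piFinset] at hd
      rw [hc, hE]
      exact ex_card S hk hPm hPi hPinj hPd hanti (fun i => hnN _) hM hM1 (hn4 0) _ _ hd.1
    rw [← hG] at h1
    have hE0 : 0 ≤ E := by rw [hE]; positivity
    obtain ⟨T, hT⟩ : ∃ T : ℝ, T = ∑ i : Fin r, (2 : ℝ) ^ (r - (i : ℕ)) *
      ((60 + 80 * (N : ℝ)) * (n i.succ : ℝ) ^ 3 / (Real.sqrt (Fintype.card k)) ^ n i.succ) :=
      ⟨_, rfl⟩
    have hT0 : 0 ≤ T := by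
      rw [hT]
      exact sum_nonneg fun i _ => by positivity
    obtain ⟨Q, hQ⟩ : ∃ Q : ℝ, Q = ∏ i : Fin r, ((Pr k (n i.succ)).card : ℝ) := ⟨_, rfl⟩
    have hQ0 : 0 ≤ Q := by
      rw [hQ]
      exact prod_nonneg fun i _ => Nat.cast_nonneg _
    have hsum : ∑ i : Fin (r + 1), (2 : ℝ) ^ (r + 1 - (i : ℕ)) *
      ((60 + 80 * (N : ℝ)) * (n i : ℝ) ^ 3 / (Real.sqrt (Fintype.card k)) ^ n i) = E + T := by
      rw [Fin.sum_univ_succ, hE, hT]
      congr 1
      refine sum_congr rfl fun i _ => ?_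
      have e1 : r + 1 - ((Fin.succ i : Fin (r + 1)) : ℕ) = r - (i : ℕ) := by
        rw [Fin.val_succ]
        omega
      rw [e1]
    rw [hsum, Fin.prod_univ_succ, ← hQ, ← hc, cst_succ]
    rw [← hT, ← hQ] at h1
    have hc0 : 0 ≤ c := by rw [hc]; exact Nat.cast_nonneg _
    obtain ⟨hk0, hk1⟩ := cst_le (ℓ := 2) 2 r
    have hres : (0 : ℝ) ≤ ((PtN P n A p).card : ℝ) := Nat.cast_nonneg _
    have hpow0 : (0 : ℝ) ≤ 1 / (2 : ℝ) ^ (r + 2) := by positivity
    by_cases hcase : 1 - E ≤ 0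
    · refine le_trans ?_ hres
      have e1 : 0 ≤ cst 2 2 r * (1 / ((2 : ℕ) : ℝ) ^ (r + 2)) := by positivity
      have e2 : 0 ≤ c * Q := mul_nonneg hc0 hQ0
      have e3 : 1 - (E + T) ≤ 0 := by linarith
      nlinarith [mul_nonneg (mul_nonneg e1 e2) (neg_nonneg.2 e3)]
    · push Not at hcase
      refine le_trans ?_ h3
      have h8 := mul_le_mul_of_nonneg_right h1
        (by positivity : (0 : ℝ) ≤ 1 / (2 : ℝ) ^ (r + 2) * c * (1 - E))
      refine le_trans ?_ h8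
      have e2 : 0 ≤ cst 2 2 r * (1 / (2 : ℝ) ^ (r + 2)) * (c * Q) := by positivity
      have e3 : 0 ≤ T * E := mul_nonneg hT0 hE0
      have e4 : ((2 : ℕ) : ℝ) = 2 := by norm_num
      rw [e4]
      nlinarith [mul_nonneg e2 e3]

end Pool.Agent.D0H41.OD
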