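import Mathlib

set_option autoImplicit false

/-! Module MB of project OD3 (helper99): a `q`-binomial identity for `q = 2`. -/

namespace Pool.Agent.D0H41.OD

open Finset

theorem fall (d j : ℕ) : 2 ^ d * ∏ i ∈ range j, (2 ^ d - 2 ^ i) =
    (∏ i ∈ range (j + 1), (2 ^ d - 2 ^ i)) + 2 ^ j * ∏ i ∈ range j, (2 ^ d - 2 ^ i) := by
  rw [prod_range_succ]
  rcases le_or_gt j d with h | h
  · have h1 : 2 ^ j ≤ 2 ^ d := Nat.pow_le_pow_right (by norm_num) h
    obtain ⟨c, hc⟩ := Nat.exists_eq_add_of_le h1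
    have h2 : 2 ^ d - 2 ^ j = c := by omega
    rw [h2, hc]
    ring
  · have h1 : ∏ i ∈ range j, (2 ^ d - 2 ^ i) = 0 :=
      prod_eq_zero (mem_range.2 h) (Nat.sub_self _)
    rw [h1]
    simp

theorem aux (K : ℕ) : ∃ G : ℕ → ℕ, (∀ j, K < j → G j = 0) ∧
    (∀ d : ℕ, (2 ^ d) ^ K = ∑ j ∈ range (K + 1), G j * ∏ i ∈ range j, (2 ^ d - 2 ^ i)) ∧
    ∀ z : ℕ, ∑ j ∈ range (K + 1), G j * (2 ^ (j.choose 2) * z ^ j) = ∏ i ∈ range K, (1 + z * 2 ^ i) := by
  induction K with
  | zero =>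
    refine ⟨fun j => if j = 0 then 1 else 0, fun j hj => if_neg (by omega), fun d => by simp, fun z => by simp⟩
  | succ K ih =>
    obtain ⟨G, h0, h1, h2⟩ := ih
    have key : ∀ f : ℕ → ℕ, ∑ j ∈ range (K + 1 + 1), ((match j with | 0 => 0 | i + 1 => G i) + 2 ^ j * G j) * f j =
        ∑ j ∈ range (K + 1), G j * f (j + 1) + ∑ j ∈ range (K + 1), G j * (2 ^ j * f j) := by
      intro f
      have e1 : ∑ j ∈ range (K + 1 + 1), ((match j with | 0 => 0 | i + 1 => G i) + 2 ^ j * G j) * f j =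
          ∑ j ∈ range (K + 1 + 1), (match j with | 0 => 0 | i + 1 => G i) * f j +
            ∑ j ∈ range (K + 1 + 1), G j * (2 ^ j * f j) := by
        rw [← sum_add_distrib]
        exact sum_congr rfl fun j _ => by ring
      rw [e1, sum_range_succ' (fun j => (match j with | 0 => 0 | i + 1 => G i) * f j),
        sum_range_succ (fun j => G j * (2 ^ j * f j)) (K + 1), h0 (K + 1) (by omega)]
      simp
    refine ⟨fun j => (match j with | 0 => 0 | i + 1 => G i) + 2 ^ j * G j, fun j hj => ?_, fun d => ?_, fun z => ?_⟩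
    · obtain ⟨i, rfl⟩ : ∃ i, j = i + 1 := ⟨j - 1, by omega⟩
      simp only
      rw [h0 i (by omega), h0 (i + 1) (by omega)]
      simp
    · rw [key, ← sum_add_distrib, pow_succ, h1 d, sum_mul]
      refine sum_congr rfl fun j _ => ?_
      have := fall d j
      calc _ = G j * (2 ^ d * ∏ i ∈ range j, (2 ^ d - 2 ^ i)) := by ring
        _ = _ := by rw [this, mul_add]
    · rw [key, prod_range_succ']
      have e1 : ∏ i ∈ range K, (1 + z * 2 ^ (i + 1)) = ∏ i ∈ range K, (1 + (2 * z) * 2 ^ i) :=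
        prod_congr rfl fun i _ => by ring
      have e3 : ∀ j, G j * (2 ^ ((j + 1).choose 2) * z ^ (j + 1)) = (G j * (2 ^ (j.choose 2) * (2 * z) ^ j)) * z := by
        intro j
        have e2 : (j + 1).choose 2 = j + j.choose 2 := by
          rw [Nat.choose_succ_succ' j 1, Nat.choose_one_right]
        rw [e2, mul_pow, pow_add]
        ring
      have e4 : ∀ j, G j * (2 ^ j * (2 ^ (j.choose 2) * z ^ j)) = G j * (2 ^ (j.choose 2) * (2 * z) ^ j) := by
        intro j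
        rw [mul_pow]
        ring
      simp_rw [e3, e4]
      rw [e1, ← h2 (2 * z), ← sum_mul]
      ring

theorem t_MB : ∀ K : ℕ, ∃ G : ℕ → ℕ,
    (∀ d : ℕ, (2 ^ d) ^ K = ∑ j ∈ range (K + 1), G j * ∏ i ∈ range j, (2 ^ d - 2 ^ i)) ∧
    ∑ j ∈ range (K + 1), G j * 2 ^ (j * (j + 1) / 2) = ∏ i ∈ range K, (1 + 2 ^ (i + 1)) := by
  intro K
  obtain ⟨G, _, h1, h2⟩ := aux K
  refine ⟨G, h1, ?_⟩
  have h3 := h2 2
  have e1 : ∀ j : ℕ, 2 ^ (j * (j + 1) / 2) = 2 ^ (j.choose 2) * 2 ^ j := by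
    intro j
    have e2 : j * (j + 1) / 2 = j.choose 2 + j := by
      have e3 : (j + 1).choose 2 = j + j.choose 2 := by
        rw [Nat.choose_succ_succ' j 1, Nat.choose_one_right]
      have e4 : (j + 1).choose 2 = (j + 1) * j / 2 := Nat.choose_two_right (j + 1)
      rw [mul_comm, ← e4, e3, add_comm]
    rw [e2, pow_add]
  simp_rw [e1]
  rw [h3]
  exact prod_congr rfl fun i _ => by ring

end Pool.Agent.D0H41.OD
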